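import Pool.Agent.V11216.CoX

/-!
# MP_a60c23_gt : a co-consonant space whose lower powerspace is not co-consonant
-/

set_option autoImplicit false

namespace Pool.Agent.Results.MP_a60c23_gt.LowerNotCoConsonant

open Set TopologicalSpace Pool.Agent.V11216.CoCons Pool.Agent.V11216.CoX Pool.Agent.V11216.CoX.Pt

/-- `◇ U` -/
def Dia (U : Set Pt) : Set (Lower Pt) := {C | (C.1 ∩ U).Nonempty}

theorem isOpen_Dia {U : Set Pt} (hU : IsOpen U) : IsOpen (Dia U) := Lower.isOpen_dia hU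

/-- the closure of a pair -/
def pr (x y : Pt) : Lower Pt := ⟨closure {x, y}, isClosed_closure⟩

theorem pr_mem_Dia {x y : Pt} {U : Set Pt} (hU : IsOpen U) : pr x y ∈ Dia U ↔ x ∈ U ∨ y ∈ U := by
  change (closure {x, y} ∩ U).Nonempty ↔ _
  rw [closure_inter_open_nonempty_iff hU]
  constructor
  · rintro ⟨w, hw | hw, hwU⟩
    · left; rw [← show w = x from hw]; exact hwU
    · right; rw [← show w = y from hw]; exact hwU
  · rintro (h | h)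
    · exact ⟨x, Or.inl rfl, h⟩
    · exact ⟨y, Or.inr rfl, h⟩

theorem continuous_pr (x : Pt) : Continuous (pr x) := by
  rw [continuous_generateFrom_iff]
  rintro _ ⟨U, hU, rfl⟩
  change IsOpen {y | pr x y ∈ Dia U}
  by_cases hx : x ∈ U
  · have h1 : {y | pr x y ∈ Dia U} = univ := by
      ext y
      simp [pr_mem_Dia hU, hx]
    rw [h1]
    exact isOpen_univ
  · have h1 : {y | pr x y ∈ Dia U} = U := by
      ext y
      simp [pr_mem_Dia hU, hx]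
    rw [h1]
    exact hU

/-- The family. -/
def Fam : Set (Set (Lower Pt)) := {W | IsOpen W ∧ pr a z ∈ W ∧ pr b zS ∈ W ∧
  ∀ i, ∃ (g : ℕ → ℕ) (j : ℕ), j ≤ g i ∧ pr a (d g) ∈ W ∧ pr b (s i j) ∈ W}

theorem scottFam : ScottFam Fam := by
  refine ⟨fun U hU => hU.1, fun U hU V hV hUV => ⟨hV, hUV hU.2.1, hUV hU.2.2.1, fun i => ?_⟩, ?_⟩
  · obtain ⟨g, j, hj, h1, h2⟩ := hU.2.2.2 i
    exact ⟨g, j, hj, hUV h1, hUV h2⟩
  rintro D - hdir hop ⟨-, ⟨U₁, hU₁, h1⟩, ⟨U₂, hU₂, h2⟩, h3⟩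
  obtain ⟨U₀, hU₀, hU₁₀, hU₂₀⟩ := hdir U₁ hU₁ U₂ hU₂
  have hz1 := hU₁₀ h1
  have hz2 := hU₂₀ h2
  obtain ⟨n, hn⟩ := ((hop U₀ hU₀).preimage (continuous_pr a)).2.1 hz1
  choose f hf using ((hop U₀ hU₀).preimage (continuous_pr b)).2.2.2.2 hz2
  have key : ∀ k, ∃ U ∈ D, U₀ ⊆ U ∧ ∀ i < k, ∃ (g : ℕ → ℕ) (j : ℕ), j ≤ g i ∧
      pr a (d g) ∈ U ∧ pr b (s i j) ∈ U := by
    intro k
    induction k with
    | zero => exact ⟨U₀, hU₀, subset_rfl, fun i hi => absurd hi (Nat.not_lt_zero i)⟩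
    | succ k ih =>
      obtain ⟨U, hU, hsub, hUk⟩ := ih
      obtain ⟨g, j, hj, ⟨V₁, hV₁, hj1⟩, ⟨V₂, hV₂, hj2⟩⟩ := h3 k
      obtain ⟨V, hV, hV₁V, hV₂V⟩ := hdir V₁ hV₁ V₂ hV₂
      obtain ⟨V', hV', hVV', hUV'⟩ := hdir V hV U hU
      refine ⟨V', hV', hsub.trans hUV', fun i hi => ?_⟩
      rcases Nat.lt_succ_iff_lt_or_eq.1 hi with hi | rfl
      · obtain ⟨g, j, hj, h5, h6⟩ := hUk i hi
        exact ⟨g, j, hj, hUV' h5, hUV' h6⟩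
      · exact ⟨g, j, hj, hVV' (hV₁V hj1), hVV' (hV₂V hj2)⟩
  obtain ⟨U, hU, hsub, hUn⟩ := key n
  refine ⟨U, hU, hop U hU, hsub hz1, hsub hz2, fun i => ?_⟩
  rcases lt_or_ge i n with hi | hi
  · exact hUn i hi
  · refine ⟨fun i => if i < n then 0 else f i, f i, ?_, hsub (hn _ fun i hi => if_pos hi), hsub (hf i)⟩
    change f i ≤ if i < n then 0 else f i
    rw [if_neg (not_lt.2 hi)]

/-- the open sets `U(h,p)` -/
def UU (h : ℕ → ℕ) (p : ℕ) : Set Pt := {z} ∪ (N p ∪ nb (d h))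

theorem isOpen_UU (h : ℕ → ℕ) (p : ℕ) : IsOpen (UU h p) := by
  refine ⟨fun g g' hg h' => ?_, fun _ => ⟨p, fun g hg => Or.inr (Or.inl ⟨g, hg, rfl⟩)⟩, fun h' => ?_,
    fun i j j' _ h' => ?_, fun h' => ?_⟩
  · rcases h' with h' | ⟨g₀, h0, h'⟩ | h'
    · cases h'
    · cases h'
      exact Or.inr (Or.inl ⟨g', fun i hi => Nat.le_zero.1 ((hg i).trans (h0 i hi).le), rfl⟩)
    · exact Or.inr (Or.inr ((isOpen_nb (d h)).1 g g' hg h'))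
  · rcases h' with (h' | ⟨_, _, h'⟩ | ⟨_, _, h'⟩) | ⟨_, _, h' | ⟨_, _, h'⟩ | ⟨_, _, h'⟩⟩ <;> cases h'
  · rcases h' with h' | ⟨_, _, h'⟩ | ⟨_, _, h'⟩ <;> cases h'
  · rcases h' with h' | ⟨_, _, h'⟩ | ⟨_, _, h'⟩ <;> cases h'

/-- the open sets `V(c,p)` -/
def VV (c p : ℕ) : Set Pt := {zS} ∪ (range d ∪ {x | ∃ i j, (i = p → c ≤ j) ∧ x = s i j})

theorem isOpen_VV (c p : ℕ) : IsOpen (VV c p) := by
  refine ⟨fun g g' hg h' => Or.inr (Or.inl ⟨g', rfl⟩), fun h' => ?_, fun _ g => Or.inr (Or.inl ⟨g, rfl⟩),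
    fun i j j' hj h' => ?_, fun _ i => ⟨c, Or.inr (Or.inr ⟨i, c, fun _ => le_rfl, rfl⟩)⟩⟩
  · rcases h' with h' | ⟨_, h'⟩ | ⟨_, _, _, h'⟩ <;> cases h'
  · rcases h' with h' | ⟨_, h'⟩ | ⟨i₀, j₀, h0, h'⟩
    · cases h'
    · cases h'
    · cases h'
      exact Or.inr (Or.inr ⟨i, j', fun hi => (h0 hi).trans hj, rfl⟩)

theorem not_coConsonant : ¬ CoConsonant (Lower Pt) := by
  rw [coConsonant_iff]
  intro hall
  have hU₀ : IsOpen ({z} ∪ range d : Set Pt) := isOpen_nb z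
  have hV₀ : IsOpen ({zS} ∪ range d ∪ {x | ∃ i j, x = s i j} : Set Pt) := isOpen_nb zS
  have ha : IsOpen ({a} : Set Pt) := isOpen_nb a
  have hb : IsOpen ({b} : Set Pt) := isOpen_nb b
  have hW₀ : ((Dia {a} ∩ Dia ({z} ∪ range d)) ∪
      (Dia {b} ∩ Dia ({zS} ∪ range d ∪ {x | ∃ i j, x = s i j}))) ∈ Fam := by
    refine ⟨((isOpen_Dia ha).inter (isOpen_Dia hU₀)).union ((isOpen_Dia hb).inter (isOpen_Dia hV₀)),
      Or.inl ⟨(pr_mem_Dia ha).2 (Or.inl rfl), (pr_mem_Dia hU₀).2 (Or.inr (Or.inl rfl))⟩,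
      Or.inr ⟨(pr_mem_Dia hb).2 (Or.inl rfl), (pr_mem_Dia hV₀).2 (Or.inr (Or.inl (Or.inl rfl)))⟩,
      fun i => ⟨0, 0, le_rfl, ?_, ?_⟩⟩
    · exact Or.inl ⟨(pr_mem_Dia ha).2 (Or.inl rfl), (pr_mem_Dia hU₀).2 (Or.inr (Or.inr ⟨0, rfl⟩))⟩
    · exact Or.inr ⟨(pr_mem_Dia hb).2 (Or.inl rfl), (pr_mem_Dia hV₀).2 (Or.inr (Or.inr ⟨i, 0, rfl⟩))⟩
  obtain ⟨E, hE, hEW, hEF⟩ := hall Fam scottFam _ hW₀
  -- the bound `h`
  have h1 : ∀ C : Lower Pt, ∃ g : ℕ → ℕ, C ∈ E → a ∈ C.1 → (C.1 ∩ ({z} ∪ range d)).Nonempty →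
      (C.1 ∩ ({z} ∪ nb (d g))).Nonempty := by
    intro C
    by_cases hC : (C.1 ∩ ({z} ∪ range d)).Nonempty
    · obtain ⟨x, hxC, hx | ⟨g, rfl⟩⟩ := hC
      · exact ⟨0, fun _ _ _ => ⟨x, hxC, Or.inl hx⟩⟩
      · exact ⟨g, fun _ _ _ => ⟨_, hxC, Or.inr (mem_nb _)⟩⟩
    · exact ⟨0, fun _ _ h => absurd h hC⟩
  choose g hg using h1
  obtain ⟨h, hh⟩ := (hE.image g).bddAbove
  have hh' : ∀ C ∈ E, g C ≤ h := fun C hC => hh ⟨C, hC, rfl⟩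
  -- the bound `p`
  have h2 : ∀ C : Lower Pt, ∃ q : ℕ, C ∈ E → (C.1 ∩ ({zS} ∪ range d ∪ {x | ∃ i j, x = s i j})).Nonempty →
      ∀ p ≥ q, ∀ c, (C.1 ∩ VV c p).Nonempty := by
    intro C
    by_cases hC : (C.1 ∩ ({zS} ∪ range d ∪ {x | ∃ i j, x = s i j})).Nonempty
    · obtain ⟨x, hxC, (hx | hx) | ⟨i, j, hx⟩⟩ := hC
      · exact ⟨0, fun _ _ p _ c => ⟨x, hxC, Or.inl hx⟩⟩
      · exact ⟨0, fun _ _ p _ c => ⟨x, hxC, Or.inr (Or.inl hx)⟩⟩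
      · refine ⟨i + 1, fun _ _ p hp c => ⟨x, hxC, Or.inr (Or.inr ⟨i, j, fun hi => ?_, hx⟩)⟩⟩
        omega
    · exact ⟨0, fun _ h => absurd h hC⟩
  choose q hq using h2
  obtain ⟨p, hp⟩ := (hE.image q).bddAbove
  have hp' : ∀ C ∈ E, q C ≤ p := fun C hC => hp ⟨C, hC, rfl⟩
  -- the bad open set
  have hWF := hEF ((Dia {a} ∩ Dia (UU h (p + 1))) ∪ (Dia {b} ∩ Dia (VV (h p + 1) p)))
    (((isOpen_Dia ha).inter (isOpen_Dia (isOpen_UU _ _))).union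
      ((isOpen_Dia hb).inter (isOpen_Dia (isOpen_VV _ _)))) (by
    intro C hC
    rcases hEW hC with ⟨h1, h2⟩ | ⟨h1, h2⟩
    · refine Or.inl ⟨h1, ?_⟩
      obtain ⟨w, hw, hw'⟩ := h1
      rw [show w = a from hw'] at hw
      obtain ⟨x, hxC, hx | ⟨g', hg', hx⟩⟩ := hg C hC hw h2
      · exact ⟨x, hxC, Or.inl hx⟩
      · exact ⟨x, hxC, Or.inr (Or.inr ⟨g', hg'.trans (hh' C hC), hx⟩)⟩
    · exact Or.inr ⟨h1, hq C hC h2 p (hp' C hC) _⟩)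
  obtain ⟨-, -, -, h4⟩ := hWF
  obtain ⟨g', j, hj, h5, h6⟩ := h4 p
  have h7 : g' p ≤ h p := by
    rcases h5 with ⟨-, h5⟩ | ⟨h5, -⟩
    · rcases (pr_mem_Dia (isOpen_UU _ _)).1 h5 with h5 | h5
      · rcases h5 with h5 | ⟨_, _, h5⟩ | ⟨_, _, h5⟩ <;> cases h5
      · rcases h5 with h5 | ⟨g₀, h0, h5⟩ | ⟨g₀, h0, h5⟩
        · cases h5
        · cases h5
          rw [h0 p (Nat.lt_succ_self p)]
          exact Nat.zero_le _
        · cases h5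
          exact h0 p
    · rcases (pr_mem_Dia hb).1 h5 with h5 | h5 <;> cases h5
  have h8 : h p + 1 ≤ j := by
    rcases h6 with ⟨h6, -⟩ | ⟨-, h6⟩
    · rcases (pr_mem_Dia ha).1 h6 with h6 | h6 <;> cases h6
    · rcases (pr_mem_Dia (isOpen_VV _ _)).1 h6 with h6 | h6
      · rcases h6 with h6 | ⟨_, h6⟩ | ⟨_, _, _, h6⟩ <;> cases h6
      · rcases h6 with h6 | ⟨_, h6⟩ | ⟨i₀, j₀, h0, h6⟩
        · cases h6
        · cases h6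
        · cases h6
          exact h0 rfl
  omega

/-- There is a co-consonant `T₀` space whose lower powerspace is not co-consonant. -/
theorem result : ∃ (X : Type) (_ : TopologicalSpace X), T0Space X ∧ CoConsonant X ∧
    ¬ CoConsonant (Lower X) :=
  ⟨Pt, inferInstance, inferInstance, coConsonant, not_coConsonant⟩

end Pool.Agent.Results.MP_a60c23_gt.LowerNotCoConsonant
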